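import Mathlib

set_option autoImplicit false
open Polynomial Set

namespace Pool.Agent.Results.MP_01622d_an.SnakeNotExtremal

theorem result : ∃ (n k : ℕ) (μ : ℝ → ℝ) (ω p : ℝ[X]) (τ : Fin (n + 1) → ℝ),
    1 ≤ k ∧ k ≤ n ∧ ContinuousOn μ (Icc (-1) 1) ∧ (∀ x ∈ Icc (-1 : ℝ) 1, 0 < μ x) ∧
    ω.natDegree ≤ n ∧ (∀ x ∈ Icc (-1 : ℝ) 1, |ω.eval x| ≤ μ x) ∧
    StrictAnti τ ∧ (∀ i, τ i ∈ Icc (-1 : ℝ) 1) ∧ (∀ i, ω.eval (τ i) = (-1) ^ (i : ℕ) * μ (τ i)) ∧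
    p.natDegree ≤ n ∧ (∀ x ∈ Icc (-1 : ℝ) 1, |p.eval x| ≤ μ x) ∧
    ∃ M : ℝ, (∀ x ∈ Icc (-1 : ℝ) 1, |(derivative^[k] ω).eval x| ≤ M) ∧
      ∃ x₀ ∈ Icc (-1 : ℝ) 1, M < |(derivative^[k] p).eval x₀| := by
  refine ⟨5, 1, fun x => max |x * (x ^ 2 - 49 / 50) * (x ^ 2 - 19 / 20)|
      |7 / 10 * ((x ^ 2 - 1) * (x ^ 2 - (49 / 50) ^ 2))|,
    X * (X ^ 2 - C (49 / 50)) * (X ^ 2 - C (19 / 20)),
    C (7 / 10) * ((X ^ 2 - 1) * (X ^ 2 - C ((49 / 50) ^ 2))),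
    ![1, 49 / 50, 4 / 5, -4 / 5, -49 / 50, -1], le_rfl, by norm_num, by fun_prop, ?_, ?_, ?_, ?_, ?_,
    ?_, ?_, ?_, 931 / 1000, ?_, -3 / 5, by norm_num, ?_⟩
  · intro x _
    by_contra h
    push Not at h
    have h1 := abs_nonpos_iff.1 ((le_max_left _ _).trans h)
    have h2 := abs_nonpos_iff.1 ((le_max_right _ _).trans h)
    have h3 : x ^ 2 = 1 ∨ x ^ 2 = (49 / 50) ^ 2 := by
      rcases mul_eq_zero.1 h2 with h | h
      · norm_num at h
      · rcases mul_eq_zero.1 h with h | h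
        · left; linarith
        · right; linarith
    have h4 : x = 0 := by
      rcases h3 with h | h <;> rw [h] at h1 <;> linarith
    rw [h4] at h3
    norm_num at h3
  · compute_degree
  · intro x _
    simp only [eval_mul, eval_sub, eval_pow, eval_X, eval_C]
    exact le_max_left _ _
  · refine Fin.strictAnti_iff_succ_lt.2 fun i => ?_
    fin_cases i <;> simp <;> norm_num
  · intro i
    fin_cases i <;> simp <;> norm_num
  · intro i
    fin_cases i <;> simp [max_def, abs_of_pos, abs_of_neg] <;> norm_num [abs_of_pos, abs_of_neg]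
  · compute_degree!
  · intro x _
    simp only [eval_mul, eval_sub, eval_pow, eval_X, eval_C, eval_one]
    exact le_max_right _ _
  · intro x hx
    have h1 : x ^ 2 ≤ 1 := by nlinarith [hx.1, hx.2]
    have h0 : 0 ≤ x ^ 2 := sq_nonneg x
    have : (derivative^[1] (X * (X ^ 2 - C (49 / 50)) * (X ^ 2 - C (19 / 20)) : ℝ[X])).eval x =
        5 * (x ^ 2) ^ 2 - 579 / 100 * x ^ 2 + 931 / 1000 := by
      simp [derivative_mul]; ring
    rw [this, abs_le]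
    constructor
    · nlinarith [sq_nonneg (x ^ 2 - 579 / 1000)]
    · nlinarith
  · have : (derivative^[1] (C (7 / 10) * ((X ^ 2 - 1) * (X ^ 2 - C ((49 / 50) ^ 2))) : ℝ[X])).eval
        (-3 / 5) = 7 / 10 * (4 * (-3 / 5) ^ 3 - 2 * (1 + (49 / 50) ^ 2) * (-3 / 5)) := by
      simp [derivative_mul, -map_pow]; ring
    rw [this]
    norm_num [abs_of_pos]

end Pool.Agent.Results.MP_01622d_an.SnakeNotExtremal
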